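import Pool.Agent.helper96.LK.SpecM

/-!
# lk:MXY, the Melnikov coefficients of `x^i y^j ∂_x` and `x^i y^j ∂_y`
-/

open PowerSeries Filter

noncomputable section

namespace Pool.Agent.LK

open Pool.Agent.helper59.LC Pool.Agent.helper59.LD

section
variable {A : Type} [CommRing A] [Algebra ℚ A]

/-- the monomials -/
def MXY_M {m m' : ℕ} {e e' : A} (r : Rt m e) (r' : Rt m' e') (k l : ℤ) :
    (LaurentPolynomial A)⟦X⟧ := emb 1 (r.z k) * emb (-1) (r'.z l)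

theorem MXY_M_mul {m m' : ℕ} {e e' : A} (r : Rt m e) (r' : Rt m' e') (k l k' l' : ℤ) :
    MXY_M r r' k l * MXY_M r r' k' l' = MXY_M r r' (k + k') (l + l') := by
  unfold MXY_M
  rw [r.add, r'.add, map_mul, map_mul]
  ring

theorem MXY_M_zero {m m' : ℕ} {e e' : A} (r : Rt m e) (r' : Rt m' e') :
    MXY_M r r' 0 0 = 1 := by
  unfold MXY_M
  rw [r.zero, r'.zero, map_one, map_one, one_mul]

theorem MXY_M_pow {m m' : ℕ} {e e' : A} (r : Rt m e) (r' : Rt m' e') (k l : ℤ) (n : ℕ) :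
    MXY_M r r' k l ^ n = MXY_M r r' (n * k) (n * l) := by
  induction n with
  | zero => rw [pow_zero, Nat.cast_zero, zero_mul, zero_mul, MXY_M_zero]
  | succ n ih =>
    rw [pow_succ, ih, MXY_M_mul]
    congr 1 <;> push_cast <;> ring

/-- cancellation of `x` -/
theorem MXY_M_cancel {m m' : ℕ} {e e' : A} (r : Rt m e) (r' : Rt m' e') (k l : ℤ)
    {s t : (LaurentPolynomial A)⟦X⟧} (h : MXY_M r r' k l * s = t) :
    s = MXY_M r r' (-k) (-l) * t := by
  rw [← h, ← mul_assoc, MXY_M_mul, neg_add_cancel, neg_add_cancel, MXY_M_zero, one_mul]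

theorem MXY_ev2_natCast (x : Fin 2 → (LaurentPolynomial A)⟦X⟧) (n : ℕ) :
    ev2 x (MvPolynomial.C (n : A)) = cc (n : A) := by
  rw [ev2, MvPolynomial.aeval_C, PowerSeries.algebraMap_apply]
  rfl

theorem MXY_ev2_mul (x : Fin 2 → (LaurentPolynomial A)⟦X⟧) (P Q : MvPolynomial (Fin 2) A) :
    ev2 x (P * Q) = ev2 x P * ev2 x Q := by
  rw [ev2, map_mul]; rfl

theorem MXY_ev2_pow (x : Fin 2 → (LaurentPolynomial A)⟦X⟧) (P : MvPolynomial (Fin 2) A) (n : ℕ) :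
    ev2 x (P ^ n) = ev2 x P ^ n := by
  rw [ev2, map_pow]; rfl

theorem MXY_ev2_one (x : Fin 2 → (LaurentPolynomial A)⟦X⟧) :
    ev2 x (1 : MvPolynomial (Fin 2) A) = 1 := by
  rw [ev2, map_one]

/-- cancelling the factor `den` -/
theorem MXY_cancel_den (HL : LOW_stmt) (a : ℕ) (ha : 2 ≤ a) (e e' : A)
    (f : Fin 2 → MvPolynomial (Fin 2) A) (i : Fin 2) :
    ev2 (xy (pT A a) (gT e e')) (∑ j, MvPolynomial.pderiv j (PP (pT A a) i) * (den A a * f j)) *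
      inv1 (ev2 (xy (pT A a) (gT e e')) (Jac (pT A a) * 1)) =
    ev2 (xy (pT A a) (gT e e')) (∑ j, MvPolynomial.pderiv j (PP (pT A a) i) * f j) := by
  obtain ⟨hlow, hjac, -⟩ := HL A a ha
  have h0 := coeff_zero_Jlam hlow (gT e e') (lam := 1) (by rw [map_one])
  have h1 := inv1_mul h0
  have h2 : (∑ j, MvPolynomial.pderiv j (PP (pT A a) i) * (den A a * f j)) =
      (∑ j, MvPolynomial.pderiv j (PP (pT A a) i) * f j) * (Jac (pT A a) * 1) := by
    rw [hjac, mul_one, Finset.sum_mul]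
    refine Finset.sum_congr rfl fun j _ => ?_
    ring
  rw [h2, MXY_ev2_mul, mul_assoc, h1, mul_one]

theorem MXY_qc (a : ℕ) (ha : 2 ≤ a) :
    (MvPolynomial.C (qc A (1 / ((a : ℚ) ^ 2 - 1))) : MvPolynomial (Fin 2) A) *
      (MvPolynomial.C ((a : A) ^ 2) - 1) = 1 := by
  have h1 : ((a : ℚ) ^ 2 - 1) ≠ 0 := by
    have : (2 : ℚ) ≤ a := by exact_mod_cast ha
    nlinarith
  have h2 : (a : A) ^ 2 - 1 = qc A ((a : ℚ) ^ 2 - 1) := by
    simp [qc]
  rw [← map_one (MvPolynomial.C (R := A) (σ := Fin 2)), ← map_sub, ← map_mul, h2, ← qc_mul,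
    one_div, inv_mul_cancel₀ h1, qc_one, map_one]

/-- the four sums -/
theorem MXY_sums (HL : LOW_stmt) (a : ℕ) (ha : 2 ≤ a) (i j : ℕ) :
    xP A a * (∑ t, MvPolynomial.pderiv t (PP (pT A a) 0) * fx A a i j t) =
      MvPolynomial.C (a : A) * ((xP A a ^ a * yP A a) * (xP A a ^ i * yP A a ^ j)) ∧
    xP A a * (∑ t, MvPolynomial.pderiv t (PP (pT A a) 1) * fx A a i j t) =
      ((xP A a * yP A a ^ a) * (xP A a ^ i * yP A a ^ j)) ∧
    yP A a * (∑ t, MvPolynomial.pderiv t (PP (pT A a) 0) * fy A a i j t) =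
      ((xP A a ^ a * yP A a) * (xP A a ^ i * yP A a ^ j)) ∧
    yP A a * (∑ t, MvPolynomial.pderiv t (PP (pT A a) 1) * fy A a i j t) =
      MvPolynomial.C (a : A) * ((xP A a * yP A a ^ a) * (xP A a ^ i * yP A a ^ j)) := by
  obtain ⟨-, -, h00, h10, h01, h11⟩ := HL A a ha
  have hq := MXY_qc (A := A) a ha
  have hpx : xP A a ^ a = xP A a ^ (a - 1) * xP A a := by
    rw [← pow_succ]; congr 1; omega
  have hpy : yP A a ^ a = yP A a ^ (a - 1) * yP A a := by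
    rw [← pow_succ]; congr 1; omega
  have hC : (MvPolynomial.C ((a : A) ^ 2) : MvPolynomial (Fin 2) A) =
    MvPolynomial.C (a : A) ^ 2 := map_pow _ _ _
  rw [Fin.sum_univ_two, Fin.sum_univ_two, Fin.sum_univ_two, Fin.sum_univ_two, h00, h10, h01, h11,
    hpx, hpy]
  rw [hC] at hq ⊢
  simp only [fx, fy, if_true, one_ne_zero, if_false]
  set c : MvPolynomial (Fin 2) A := MvPolynomial.C (qc A (1 / ((a : ℚ) ^ 2 - 1)))
  set α : MvPolynomial (Fin 2) A := MvPolynomial.C (a : A)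
  set x := xP A a
  set y := yP A a
  refine ⟨?_, ?_, ?_, ?_⟩
  · linear_combination (α * x ^ (a - 1) * x * y * x ^ i * y ^ j) * hq
  · linear_combination (y ^ (a - 1) * x * y * x ^ i * y ^ j) * hq
  · linear_combination (x ^ (a - 1) * x * y * x ^ i * y ^ j) * hq
  · linear_combination (α * y ^ (a - 1) * x * y * x ^ i * y ^ j) * hq

end

theorem MXY_aux (HL : LOW_stmt) (HS : SOL_stmt) (A : Type) [CommRing A] [Algebra ℚ A] (a : ℕ)
    (e e' : A) (ha : 2 ≤ a) (r : Rt (a ^ 2 - 1) e) (r' : Rt (a ^ 2 - 1) e') (i j : ℕ) :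
    ev2 (xy (pT A a) (gT e e')) (∑ t, MvPolynomial.pderiv t (PP (pT A a) 0) * fx A a i j t) =
      cc (a : A) * MXY_M r r' (a * (i - 1) - j + (a ^ 2 - 1 : ℕ)) (a * j - (i - 1)) ∧
    ev2 (xy (pT A a) (gT e e')) (∑ t, MvPolynomial.pderiv t (PP (pT A a) 1) * fx A a i j t) =
      MXY_M r r' (a * (i - 1) - j) (a * j - (i - 1) + (a ^ 2 - 1 : ℕ)) ∧
    ev2 (xy (pT A a) (gT e e')) (∑ t, MvPolynomial.pderiv t (PP (pT A a) 0) * fy A a i j t) =
      MXY_M r r' (a * i - (j - 1) + (a ^ 2 - 1 : ℕ)) (a * (j - 1) - i) ∧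
    ev2 (xy (pT A a) (gT e e')) (∑ t, MvPolynomial.pderiv t (PP (pT A a) 1) * fy A a i j t) =
      cc (a : A) * MXY_M r r' (a * i - (j - 1)) (a * (j - 1) - i + (a ^ 2 - 1 : ℕ)) := by
  obtain ⟨hx, hy⟩ := HS A a e e' ha r r'
  obtain ⟨h1, h2, h3, h4⟩ := MXY_sums (A := A) HL a ha i j
  have hx' : ev2 (xy (pT A a) (gT e e')) (xP A a) = MXY_M r r' a (-1) := hx
  have hy' : ev2 (xy (pT A a) (gT e e')) (yP A a) = MXY_M r r' (-1) a := hy
  have hm : ((a ^ 2 - 1 : ℕ) : ℤ) = (a : ℤ) ^ 2 - 1 := by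
    have : 1 ≤ a ^ 2 := Nat.one_le_pow _ _ (by omega)
    push_cast [Nat.cast_sub this]
    ring
  have k1 := congrArg (ev2 (xy (pT A a) (gT e e'))) h1
  have k2 := congrArg (ev2 (xy (pT A a) (gT e e'))) h2
  have k3 := congrArg (ev2 (xy (pT A a) (gT e e'))) h3
  have k4 := congrArg (ev2 (xy (pT A a) (gT e e'))) h4
  simp only [MXY_ev2_mul, MXY_ev2_pow, hx', hy', MXY_ev2_natCast, MXY_M_pow, MXY_M_mul] at k1 k2 k3 k4
  rw [hm]
  refine ⟨?_, ?_, ?_, ?_⟩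
  · rw [MXY_M_cancel r r' _ _ k1, mul_left_comm, MXY_M_mul]
    exact congrArg (fun z => cc (a : A) * z) (congrArg₂ (MXY_M r r') (by ring) (by ring))
  · rw [MXY_M_cancel r r' _ _ k2, MXY_M_mul]
    exact congrArg₂ (MXY_M r r') (by ring) (by ring)
  · rw [MXY_M_cancel r r' _ _ k3, MXY_M_mul]
    exact congrArg₂ (MXY_M r r') (by ring) (by ring)
  · rw [MXY_M_cancel r r' _ _ k4, mul_left_comm, MXY_M_mul]
    exact congrArg (fun z => cc (a : A) * z) (congrArg₂ (MXY_M r r') (by ring) (by ring))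

theorem MXY_tc0 {A : Type} [CommRing A] [Algebra ℚ A] {m : ℕ}
    {e e' : A} (r : Rt m e) (r' : Rt m e') (k : ℕ) (u v : ℤ) :
    tc 1 k (emb 1 (rec' (psi (gq e))) * MXY_M r r' (u + m) v) =
      coeff (k + 1) (bs r u) * coeff k (r'.z v) := by
  have h : emb 1 (rec' (psi (gq e))) * MXY_M r r' (u + m) v =
      emb 1 (bs r u) * emb (-1) (r'.z v) := by
    rw [MXY_M, bs, map_mul]
    ring
  rw [h, tc_emb_mul one_ne_zero]

theorem MXY_tc1 {A : Type} [CommRing A] [Algebra ℚ A] {m : ℕ}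
    {e e' : A} (r : Rt m e) (r' : Rt m e') (k : ℕ) (u v : ℤ) :
    tc (-1) k (emb (-1) (rec' (psi (gq e'))) * MXY_M r r' u (v + m)) =
      coeff k (r.z u) * coeff (k + 1) (bs r' v) := by
  have h : emb (-1) (rec' (psi (gq e'))) * MXY_M r r' u (v + m) =
      emb (-1) (bs r' v) * emb (-(-1)) (r.z u) := by
    rw [MXY_M, bs, map_mul, neg_neg]
    ring
  rw [h, tc_emb_mul (by norm_num), mul_comm]

theorem MXY (HL : LOW_stmt) (HS : SOL_stmt) : MXY_stmt := by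
  intro A _ _ a e e' ha r r' i j k
  obtain ⟨h1, h2, h3, h4⟩ := MXY_aux HL HS A a e e' ha r r' i j
  have g0 : gT e e' 0 = gq e := by rw [gT, if_pos rfl]
  have g1 : gT e e' 1 = gq e' := by rw [gT, if_neg (by decide)]
  have s0 : eI 0 = 1 := rfl
  have s1 : eI 1 = -1 := rfl
  constructor
  · rw [MM, Fin.sum_univ_two, MMp, MMp, mul_assoc, mul_assoc, MXY_cancel_den HL a ha,
      MXY_cancel_den HL a ha, h1, h2, g0, g1, s0, s1, mul_left_comm, tc_cc_mul, MXY_tc0, MXY_tc1]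
  · rw [MM, Fin.sum_univ_two, MMp, MMp, mul_assoc, mul_assoc, MXY_cancel_den HL a ha,
      MXY_cancel_den HL a ha, h3, h4, g0, g1, s0, s1, mul_left_comm _ (cc (a : A)), tc_cc_mul,
      MXY_tc0, MXY_tc1]

end Pool.Agent.LK
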